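import Pool.Agent.Run7.h749.Fin

/-!
# Recognising segment intersection graphs of girth at least `k` is `∃ℝ`-hard
-/

namespace Pool.Agent.Results.MP_beb3fe_lc.SegGirthHard

open Pool.Agent.NPC Pool.Agent.NPC.ER

/-- The graph `G` is a segment intersection graph: there is a family of closed, nondegenerate line
segments in the plane, one for every vertex, such that two distinct vertices are adjacent if and
only if their segments meet. -/
def SegGraph {V : Type} (G : SimpleGraph V) : Prop :=
  ∃ P Q : V → ℝ × ℝ, (∀ v, P v ≠ Q v) ∧
    ∀ u v, u ≠ v → (G.Adj u v ↔ (segment ℝ (P u) (Q u) ∩ segment ℝ (P v) (Q v)).Nonempty)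

/-- For every `k`, the recognition problem of segment intersection graphs, restricted to graphs of
girth at least `k`, is `∃ℝ`-hard: for every language in `∃ℝ` there is a polynomial-time many-one
reduction all of whose values are graphs of girth at least `k`. -/
theorem result (k : ℕ) (L : Set (List Bool)) (hL : InER L) :
    ∃ f : List Bool → GCode, PolyTime (fun x => bits (f x)) ∧
      ∀ x, (f x).WF ∧ (k : ℕ∞) ≤ (f x).graph.egirth ∧ (x ∈ L ↔ SegGraph (f x).graph) :=
  Pool.Agent.NPC.H749.main k L hL

end Pool.Agent.Results.MP_beb3fe_lc.SegGirthHard
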